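import Pool.Agent.W294.MZ.ExStmts
import Pool.Agent.W178.MZ.K6
import Pool.Agent.W368.MZ.K4

/-!
# MP_aa8fd2_nt, part EX-H3: finitely many quadratic characters of an open subgroup of `G_{F,S}`
-/

set_option autoImplicit false

namespace Pool.Agent.W880.MZH3

open NumberField IsDedekindDomain MZ Pool.Agent.W368.MZK4

/-- the valuation of an element which becomes a square in an extension unramified at some prime
above `v` is a square -/
theorem isSquare_val {M K : Type} [Field M] [NumberField M] [Field K] [NumberField K]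
    [Algebra M K] (v : HeightOneSpectrum (𝓞 M)) (w : HeightOneSpectrum (𝓞 K))
    (hvw : w.asIdeal.comap (algebraMap (𝓞 M) (𝓞 K)) = v.asIdeal)
    (hw : Algebra.IsUnramifiedAt (𝓞 M) w.asIdeal) (a : M) (y : K)
    (hy : y ^ 2 = algebraMap M K a) : IsSquare (v.valuation M a) := by
  have hl : w.asIdeal.LiesOver v.asIdeal := ⟨hvw.symm⟩
  have hp : w.asIdeal.IsPrime := w.isPrime
  have h1 := HeightOneSpectrum.valuation_liesOver (A := 𝓞 M) (K := M) K v w a
  rw [Ideal.ramificationIdx'_eq_ramificationIdx v.asIdeal w.asIdeal v.ne_bot,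
    Ideal.ramificationIdx_eq_one_of_isUnramifiedAt, pow_one] at h1
  rw [h1, ← hy, map_pow, sq]
  exact ⟨_, rfl⟩

/-- finitely many primes above a finite set of primes -/
theorem finite_above {F M : Type} [Field F] [NumberField F] [Field M] [NumberField M] [Algebra F M]
    (S : Set (HeightOneSpectrum (𝓞 F))) (hS : S.Finite) :
    {v : HeightOneSpectrum (𝓞 M) | ∃ u ∈ S,
      v.asIdeal.comap (algebraMap (𝓞 F) (𝓞 M)) = u.asIdeal}.Finite := by
  have h1 : {v : HeightOneSpectrum (𝓞 M) | ∃ u ∈ S,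
      v.asIdeal.comap (algebraMap (𝓞 F) (𝓞 M)) = u.asIdeal} ⊆
      ⋃ u ∈ S, HeightOneSpectrum.asIdeal ⁻¹' (u.asIdeal.primesOver (𝓞 M)) := by
    rintro v ⟨u, hu, hv⟩
    simp only [Set.mem_iUnion]
    exact ⟨u, hu, v.isPrime, ⟨hv.symm⟩⟩
  refine Set.Finite.subset (hS.biUnion fun u _ => ?_) h1
  have : u.asIdeal.IsMaximal := u.isMaximal
  exact (IsDedekindDomain.primesOver_finite u.asIdeal (𝓞 M)).preimage
    (fun x _ y _ h => HeightOneSpectrum.ext h)

theorem exH (h1 : MZEX.StmExH1) (h2 : MZEX.StmExH2) : MZEX.StmExH := by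
  intro F Ω _ _ _ _ _ S hSf _ H hH
  have hgal : IsGalois F (FSmax S : IntermediateField F Ω) := Pool.Agent.W178.MZK.K7 F Ω S
  have hchar : CharZero (FSmax S : IntermediateField F Ω) := charZero_of_injective_algebraMap
    (algebraMap F (FSmax S : IntermediateField F Ω)).injective
  -- the fixed field of `H`
  have hfd0 : FiniteDimensional F (IntermediateField.fixedField H) := by
    rw [← InfiniteGalois.isOpen_iff_finite]
    have hHc : IsClosed (H : Set (GFS Ω S)) := Subgroup.isClosed_of_isOpen _ hH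
    have h3 := InfiniteGalois.fixingSubgroup_fixedField
      (⟨H, hHc⟩ : ClosedSubgroup (GFS Ω S))
    simp only at h3
    rw [h3]
    exact hH
  set M₀ : IntermediateField F (FSmax S : IntermediateField F Ω) :=
    IntermediateField.fixedField H with hM₀
  set M : IntermediateField F Ω := IntermediateField.lift M₀ with hM
  have hfd : FiniteDimensional F M :=
    LinearEquiv.finiteDimensional (IntermediateField.liftAlgEquiv M₀).toLinearEquiv
  have hnM : NumberField M := NumberField.of_module_finite F M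
  obtain ⟨Z, hZ, hsel⟩ := h2 M _ (finite_above (F := F) (M := M) S hSf)
  have hfixM : ∀ (g : H) (x : (FSmax S : IntermediateField F Ω)), (x : Ω) ∈ M →
      (g : GFS Ω S) x = x := by
    intro g x hx
    have h3 : x ∈ M₀ := (IntermediateField.mem_lift x).1 hx
    rw [hM₀, IntermediateField.mem_fixedField_iff] at h3
    exact h3 g g.2
  have key : ∀ χ : {χ : H →* Multiplicative (ZMod 2) // IsOpen (χ.ker : Set H)},
      ∃ z : Z, ∃ y : (FSmax S : IntermediateField F Ω), y ≠ 0 ∧ (y : Ω) ^ 2 = ((z : M) : Ω) ∧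
        ∀ g : H, χ.1 g = 1 ↔ (g : GFS Ω S) y = y := by
    intro χ
    obtain ⟨y, hy0, hy⟩ := exists_y H hH χ.1 χ.2
    have hyM0 : y ^ 2 ∈ M₀ := by
      rw [hM₀, IntermediateField.mem_fixedField_iff]
      intro g hg
      rw [map_pow]
      by_cases h3 : χ.1 ⟨g, hg⟩ = 1
      · rw [(hy ⟨g, hg⟩).1 h3]
      · rw [(hy ⟨g, hg⟩).2 h3]
        ring
    have hyM : (y : Ω) ^ 2 ∈ M := (IntermediateField.mem_lift (y ^ 2)).2 hyM0
    have hyΩ : (y : Ω) ≠ 0 := fun h => hy0 (Subtype.ext h)
    have ha0 : (⟨(y : Ω) ^ 2, hyM⟩ : M) ≠ 0 := by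
      intro h
      exact pow_ne_zero 2 hyΩ (congrArg Subtype.val h)
    -- the quadratic extension
    have hint : IsIntegral F (y : Ω) := by
      have : IsIntegral F y := Algebra.IsIntegral.isIntegral y
      exact this.map (FSmax S : IntermediateField F Ω).val
    obtain ⟨K, hK⟩ : ∃ K : IntermediateField F Ω, K = M ⊔ IntermediateField.adjoin F {(y : Ω)} :=
      ⟨_, rfl⟩
    have hMK : M ≤ K := by rw [hK]; exact le_sup_left
    have hyK : (y : Ω) ∈ K := by
      rw [hK]
      exact (le_sup_right : _ ≤ M ⊔ IntermediateField.adjoin F {(y : Ω)})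
        (IntermediateField.mem_adjoin_simple_self F (y : Ω))
    have hKE : K ≤ FSmax S := by
      rw [hK]
      refine sup_le (IntermediateField.lift_le M₀) ?_
      rw [IntermediateField.adjoin_simple_le_iff]
      exact y.2
    have hfdK : FiniteDimensional F K := by
      have := IntermediateField.adjoin.finiteDimensional hint
      rw [hK]
      infer_instance
    have hunr := h1 F Ω S K hfdK hKE
    have hsq : ∀ v ∉ {v : HeightOneSpectrum (𝓞 M) | ∃ u ∈ S,
        v.asIdeal.comap (algebraMap (𝓞 F) (𝓞 M)) = u.asIdeal},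
        IsSquare (v.valuation M (⟨(y : Ω) ^ 2, hyM⟩ : M)) := by
      intro v hv
      let _ : Algebra M K := (IntermediateField.inclusion hMK).toRingHom.toAlgebra
      have _ : IsScalarTower F M K := IsScalarTower.of_algebraMap_eq (fun x => rfl)
      have hnK : NumberField K := NumberField.of_module_finite F K
      have hvp := v.isPrime
      have hvm := v.isMaximal
      obtain ⟨Q, hQm, hQ⟩ := Ideal.exists_maximal_ideal_liesOver_of_isIntegral (S := 𝓞 K) v.asIdeal
      have hQb : Q ≠ ⊥ := by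
        rintro rfl
        apply v.ne_bot
        rw [hQ.over]
        exact Ideal.under_bot (𝓞 M) (𝓞 K)
      let w : HeightOneSpectrum (𝓞 K) := ⟨Q, hQm.isPrime, hQb⟩
      have hvw : w.asIdeal.comap (algebraMap (𝓞 M) (𝓞 K)) = v.asIdeal := hQ.over.symm
      have h4 : Algebra.IsUnramifiedAt (𝓞 F) w.asIdeal := by
        apply hunr w
        intro u hu hcon
        apply hv
        refine ⟨u, hu, ?_⟩
        rw [← hcon, ← hvw, Ideal.comap_comap, ← IsScalarTower.algebraMap_eq]
      have h5 : Algebra.IsUnramifiedAt (𝓞 M) w.asIdeal := by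
        have := h4
        exact Algebra.FormallyUnramified.of_restrictScalars (𝓞 F) (𝓞 M)
          (Localization.AtPrime w.asIdeal)
      exact isSquare_val v w hvw h5 _ (⟨(y : Ω), hyK⟩ : K) (Subtype.ext rfl)
    obtain ⟨z, hz, c, hc, hzc⟩ := hsel _ ha0 hsq
    have hcΩ : ((c : M) : Ω) ≠ 0 := fun h => hc (Subtype.ext h)
    have hcE : ((c : M) : Ω) ∈ (FSmax S : IntermediateField F Ω) := IntermediateField.lift_le M₀ c.2
    have hzc' : (y : Ω) ^ 2 = ((z : M) : Ω) * ((c : M) : Ω) ^ 2 := congrArg Subtype.val hzc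
    refine ⟨⟨z, hz⟩, y / ⟨((c : M) : Ω), hcE⟩, ?_, ?_, ?_⟩
    · refine div_ne_zero hy0 ?_
      intro h
      exact hcΩ (congrArg Subtype.val h)
    · change ((y : Ω) / ((c : M) : Ω)) ^ 2 = ((z : M) : Ω)
      rw [div_pow, hzc']
      field_simp
    · intro g
      have hcg : (g : GFS Ω S) (⟨((c : M) : Ω), hcE⟩ : (FSmax S : IntermediateField F Ω)) =
          ⟨((c : M) : Ω), hcE⟩ := hfixM g _ c.2
      have hc0 : (⟨((c : M) : Ω), hcE⟩ : (FSmax S : IntermediateField F Ω)) ≠ 0 :=
        fun h => hcΩ (congrArg Subtype.val h)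
      rw [map_div₀, hcg]
      constructor
      · intro h3
        rw [(hy g).1 h3]
      · intro h3
        by_contra h4
        rw [(hy g).2 h4, div_left_inj' hc0] at h3
        exact hy0 (neg_eq_self.1 h3)
  choose z y hy0 hyz hyχ using key
  have hZf : Finite Z := hZ
  refine Finite.of_injective z ?_
  intro χ χ' h
  apply Subtype.ext
  apply chi_ext
  intro g
  rw [hyχ, hyχ]
  have h3 : (y χ) ^ 2 = (y χ') ^ 2 := by
    apply Subtype.ext
    change (y χ : Ω) ^ 2 = (y χ' : Ω) ^ 2
    rw [hyz, hyz, h]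
  rcases sq_eq_sq_iff_eq_or_eq_neg.1 h3 with h4 | h4
  · rw [h4]
  · rw [h4, map_neg, neg_inj]

end Pool.Agent.W880.MZH3
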